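import Pool.Graph.R_pool_sql_team_seeded_63374d34.Results.MP_78c384_co.KThreeThree

/-!
# Which complete multipartite graphs are max-tolerance graphs?

Every complete multipartite graph `K_{n_1, ..., n_k}` is a bounded tolerance graph.  It is a
max-tolerance graph if and only if at most one of its parts has three or more vertices and at most
three of its parts have two or more vertices; so the minimal complete multipartite graphs which
are not max-tolerance graphs are `K_{3,3}` and `K_{2,2,2,2}`.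

In the coordinates `L`, `t`, `-R` a vertex is a triangle (all triangles are homothetic) and two
vertices are adjacent iff the triangles meet.  The representation of `K_{m,2,2}` uses the homothetic
triangles `3^j T`, which shrink to a point, and four triangles around this point.
-/

open Finset

namespace Pool.Agent.Results.MP_78c384_co.Multipartite

/-- The length of the intersection of the closed intervals `[a, b]` and `[c, d]` (where `a ≤ b` and
`c ≤ d`), taken as `0` if the intersection is empty. -/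
noncomputable def overlap (a b c d : ℝ) : ℝ := max 0 (min b d - max a c)

/-- `G` is a bounded tolerance graph: there are closed intervals `[L v, R v]` and tolerances
`0 < t v ≤ |[L v, R v]|` such that distinct vertices are adjacent iff the length of the intersection
of their intervals is at least the minimum of their tolerances. -/
def IsBoundedTolerance {V : Type} (G : SimpleGraph V) : Prop :=
  ∃ L R t : V → ℝ, (∀ v, L v ≤ R v) ∧ (∀ v, 0 < t v) ∧ (∀ v, t v ≤ R v - L v) ∧
    ∀ u v, u ≠ v → (G.Adj u v ↔ min (t u) (t v) ≤ overlap (L u) (R u) (L v) (R v))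

/-- `G` is a max-tolerance graph: there are closed intervals `[L v, R v]` and tolerances `0 < t v`
(which may exceed the length of the interval) such that distinct vertices are adjacent iff the
length of the intersection of their intervals is at least the maximum of their tolerances. -/
def IsMaxTolerance {V : Type} (G : SimpleGraph V) : Prop :=
  ∃ L R t : V → ℝ, (∀ v, L v ≤ R v) ∧ (∀ v, 0 < t v) ∧
    ∀ u v, u ≠ v → (G.Adj u v ↔ max (t u) (t v) ≤ overlap (L u) (R u) (L v) (R v))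

/-- The complete multipartite graph `K_{n_1, ..., n_k}`: its vertices are the pairs `(i, a)` with
`a < n_i`, and two vertices are adjacent iff they are in different parts. -/
def K {k : ℕ} (n : Fin k → ℕ) : SimpleGraph (Σ i : Fin k, Fin (n i)) where
  Adj u v := u.1 ≠ v.1
  symm := ⟨fun _ _ h => h.symm⟩
  loopless := ⟨fun _ h => h rfl⟩

theorem adj_iff {k : ℕ} {n : Fin k → ℕ} {u v : Σ i : Fin k, Fin (n i)} :
    (K n).Adj u v ↔ u.1 ≠ v.1 := Iff.rfl

/-- restriction to an induced subgraph -/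
theorem IsMaxTolerance.restrict {V W : Type} {G : SimpleGraph V} {H : SimpleGraph W} (f : W → V)
    (hf : Function.Injective f) (h : ∀ u v, H.Adj u v ↔ G.Adj (f u) (f v))
    (hG : IsMaxTolerance G) : IsMaxTolerance H := by
  obtain ⟨L, R, t, h1, h2, h3⟩ := hG
  exact ⟨fun v => L (f v), fun v => R (f v), fun v => t (f v), fun v => h1 _, fun v => h2 _,
    fun u v huv => by rw [h, h3 _ _ (fun e => huv (hf e))]⟩

/-! ### Bounded tolerance -/

theorem bounded {k : ℕ} (n : Fin k → ℕ) : IsBoundedTolerance (K n) := by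
  obtain ⟨M, hM⟩ : ∃ M : ℕ, ∀ i, n i ≤ M := ⟨∑ i, n i, fun i => Finset.single_le_sum
    (fun _ _ => Nat.zero_le _) (Finset.mem_univ i)⟩
  have hv : ∀ v : Σ i : Fin k, Fin (n i), (1 : ℝ) ≤ M ∧ ((v.2 : ℕ) : ℝ) ≤ M := by
    rintro ⟨i, a⟩
    have h1 := a.2
    have h2 := hM i
    exact ⟨by exact_mod_cast (by omega : 1 ≤ M), by exact_mod_cast (by omega : (a : ℕ) ≤ M)⟩
  refine ⟨fun v => (v.2 : ℕ) - ((v.1 : ℕ) + 1) * M, fun v => (v.2 : ℕ) + ((v.1 : ℕ) + 1) * M,
    fun v => 2 * (((v.1 : ℕ) + 1) * M), ?_, ?_, ?_, ?_⟩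
  · intro v
    have := (hv v).1
    have : (0 : ℝ) ≤ ((v.1 : ℕ) + 1) * M := by positivity
    show ((v.2 : ℕ) : ℝ) - ((v.1 : ℕ) + 1) * M ≤ (v.2 : ℕ) + ((v.1 : ℕ) + 1) * M
    linarith
  · intro v
    have := (hv v).1
    have : (0 : ℝ) < ((v.1 : ℕ) + 1) * M := by positivity
    show (0 : ℝ) < 2 * (((v.1 : ℕ) + 1) * M)
    linarith
  · intro v
    show (2 : ℝ) * (((v.1 : ℕ) + 1) * M) ≤ (v.2 : ℕ) + ((v.1 : ℕ) + 1) * M -
      ((v.2 : ℕ) - ((v.1 : ℕ) + 1) * M)
    linarith
  · intro u v huv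
    rw [adj_iff]
    show u.1 ≠ v.1 ↔ min ((2 : ℝ) * (((u.1 : ℕ) + 1) * M)) (2 * (((v.1 : ℕ) + 1) * M)) ≤
      overlap ((u.2 : ℕ) - ((u.1 : ℕ) + 1) * M) ((u.2 : ℕ) + ((u.1 : ℕ) + 1) * M)
        ((v.2 : ℕ) - ((v.1 : ℕ) + 1) * M) ((v.2 : ℕ) + ((v.1 : ℕ) + 1) * M)
    obtain ⟨hM1, hu2⟩ := hv u
    obtain ⟨-, hv2⟩ := hv v
    have hu0 : (0 : ℝ) ≤ ((u.2 : ℕ) : ℝ) := by positivity
    have hv0 : (0 : ℝ) ≤ ((v.2 : ℕ) : ℝ) := by positivity
    -- different parts: nested intervals
    have key : ∀ (i j : ℕ) (a b : ℝ), i < j → 0 ≤ a → 0 ≤ b → a ≤ M → b ≤ M →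
        (a - ((i : ℝ) + 1) * M ≥ b - ((j : ℝ) + 1) * M) ∧
        (a + ((i : ℝ) + 1) * M ≤ b + ((j : ℝ) + 1) * M) := by
      intro i j a b hij ha hb haM hbM
      have h1 : (i : ℝ) + 1 ≤ j := by exact_mod_cast hij
      have h2 : ((i : ℝ) + 1) * M ≤ j * M := mul_le_mul_of_nonneg_right h1 (by linarith)
      constructor <;> nlinarith
    constructor
    · intro hne
      have hne' : (u.1 : ℕ) ≠ (v.1 : ℕ) := fun e => hne (Fin.ext e)
      unfold overlap
      rcases lt_or_gt_of_ne hne' with h | h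
      · obtain ⟨k1, k2⟩ := key _ _ _ _ h hu0 hv0 hu2 hv2
        rw [min_eq_left k2, max_eq_left k1]
        refine le_trans (min_le_left _ _) (le_trans (le_of_eq ?_) (le_max_right _ _))
        ring
      · obtain ⟨k1, k2⟩ := key _ _ _ _ h hv0 hu0 hv2 hu2
        rw [min_eq_right k2, max_eq_right k1]
        refine le_trans (min_le_right _ _) (le_trans (le_of_eq ?_) (le_max_right _ _))
        ring
    · intro h heq
      obtain ⟨i, a⟩ := u
      obtain ⟨j, b⟩ := v
      simp only at heq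
      subst heq
      simp only [min_self] at h
      have hab : ((a : ℕ) : ℝ) ≠ (b : ℕ) := by
        intro e
        apply huv
        have : (a : ℕ) = b := by exact_mod_cast e
        rw [Fin.ext this]
      have hpos : (0 : ℝ) < ((i : ℕ) + 1) * M := by positivity
      unfold overlap at h
      rcases le_max_iff.1 h with h' | h'
      · linarith
      · rcases lt_or_gt_of_ne hab with h'' | h''
        · have e1 := min_le_left (((a : ℕ) : ℝ) + ((i : ℕ) + 1) * M) (((b : ℕ) : ℝ) + ((i : ℕ) + 1) * M)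
          have e2 := le_max_right (((a : ℕ) : ℝ) - ((i : ℕ) + 1) * M) (((b : ℕ) : ℝ) - ((i : ℕ) + 1) * M)
          linarith
        · have e1 := min_le_right (((a : ℕ) : ℝ) + ((i : ℕ) + 1) * M) (((b : ℕ) : ℝ) + ((i : ℕ) + 1) * M)
          have e2 := le_max_left (((a : ℕ) : ℝ) - ((i : ℕ) + 1) * M) (((b : ℕ) : ℝ) - ((i : ℕ) + 1) * M)
          linarith

/-! ### Necessity -/

/-- In a max-tolerance representation two parts with three vertices are impossible. -/
theorem no_two_big {k : ℕ} {n : Fin k → ℕ} {i j : Fin k} (hij : i ≠ j) (hi : 3 ≤ n i)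
    (hj : 3 ≤ n j) : ¬ IsMaxTolerance (K n) := by
  intro h
  apply KThreeThree.result.2
  refine IsMaxTolerance.restrict (G := K n) (Sum.elim
    (fun a : Fin 3 => (⟨i, ⟨(a : ℕ), by omega⟩⟩ : Σ i : Fin k, Fin (n i)))
      (fun b : Fin 3 => (⟨j, ⟨(b : ℕ), by omega⟩⟩ : Σ i : Fin k, Fin (n i)))) ?_ ?_ h
  · rintro (a | a) (b | b) h
    · simp only [Sum.elim_inl] at h
      have := (Sigma.mk.inj_iff.1 h).2
      have h2 := eq_of_heq this
      have h3 := Fin.mk.inj_iff.1 h2
      rw [Fin.ext h3]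
    · simp only [Sum.elim_inl, Sum.elim_inr] at h
      exact absurd (Sigma.mk.inj_iff.1 h).1 hij
    · simp only [Sum.elim_inl, Sum.elim_inr] at h
      exact absurd (Sigma.mk.inj_iff.1 h).1 hij.symm
    · simp only [Sum.elim_inr] at h
      have := (Sigma.mk.inj_iff.1 h).2
      have h2 := eq_of_heq this
      have h3 := Fin.mk.inj_iff.1 h2
      rw [Fin.ext h3]
  · rintro (a | a) (b | b)
    · simp [adj_iff]
    · simp [adj_iff, hij]
    · simp [adj_iff, hij.symm]
    · simp [adj_iff]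

theorem no_four {k : ℕ} {n : Fin k → ℕ} (f : Fin 4 → Fin k) (hf : Function.Injective f)
    (h2 : ∀ i, 2 ≤ n (f i)) : ¬ IsMaxTolerance (K n) := by
  rintro ⟨L, R, t, hLR, ht, h⟩
  -- the three coordinates
  obtain ⟨x, hx0, hx1, hx2⟩ : ∃ x : Fin 3 → (Σ i : Fin k, Fin (n i)) → ℝ, (∀ v, x 0 v = L v) ∧
    (∀ v, x 1 v = -R v) ∧ (∀ v, x 2 v = t v) :=
    ⟨fun c v => ![L v, -R v, t v] c, fun v => rfl, fun v => rfl, fun v => rfl⟩
  have hadj : ∀ u v : (Σ i : Fin k, Fin (n i)), u.1 ≠ v.1 → ∀ c, x c u ≤ x c v + (R v - L v - t v) := by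
    intro u v huv c
    have huv' : u ≠ v := fun e => huv (by rw [e])
    have := (KThreeThree.le_overlap_iff (ht u)).1 ((h u v huv').1 huv)
    obtain ⟨c1, c2, c3, c4, c5, c6, c7, c8⟩ := this
    fin_cases c
    · show x 0 u ≤ x 0 v + (R v - L v - t v)
      rw [hx0, hx0]; linarith
    · show x 1 u ≤ x 1 v + (R v - L v - t v)
      rw [hx1, hx1]; linarith
    · show x 2 u ≤ x 2 v + (R v - L v - t v)
      rw [hx2, hx2]; linarith
  have hl0 : ∀ i : Fin 4, ∀ v : (Σ i : Fin k, Fin (n i)), v.1 = f i → 0 ≤ R v - L v - t v := by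
    intro i v hv
    obtain ⟨j, hj⟩ : ∃ j : Fin 4, j ≠ i := exists_ne i
    have hne : v.1 ≠ f j := by rw [hv]; exact fun e => hj (hf e.symm)
    have := (KThreeThree.le_overlap_iff (ht v)).1
      ((h v ⟨f j, ⟨0, by have := h2 j; omega⟩⟩ (fun e => hne (by rw [e]))).1 hne)
    obtain ⟨c1, c2, c3, c4, c5, c6, c7, c8⟩ := this
    linarith
  have hsep : ∀ i : Fin 4, ∃ c : Fin 3, ∃ p q : (Σ i : Fin k, Fin (n i)), p.1 = f i ∧ q.1 = f i ∧
      x c p + (R p - L p - t p) < x c q := by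
    intro i
    have h2i := h2 i
    obtain ⟨u, hu, hu'⟩ : ∃ u : (Σ i : Fin k, Fin (n i)), u.1 = f i ∧ (u.2 : ℕ) = 0 :=
      ⟨⟨f i, ⟨0, by omega⟩⟩, rfl, rfl⟩
    obtain ⟨v, hv, hv'⟩ : ∃ v : (Σ i : Fin k, Fin (n i)), v.1 = f i ∧ (v.2 : ℕ) = 1 :=
      ⟨⟨f i, ⟨1, by omega⟩⟩, rfl, rfl⟩
    have huv : u ≠ v := by
      intro e
      rw [e] at hu'
      omega
    have hn : ¬ (K n).Adj u v := by rw [adj_iff, hu, hv]; simp
    have e1 : 0 ≤ R u - L u - t u := hl0 i u hu
    have e2 : 0 ≤ R v - L v - t v := hl0 i v hv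
    by_contra hcon
    push Not at hcon
    have a0 := hcon 0 u v hu hv
    have a1 := hcon 1 u v hu hv
    have a2 := hcon 2 u v hu hv
    have b0 := hcon 0 v u hv hu
    have b1 := hcon 1 v u hv hu
    have b2 := hcon 2 v u hv hu
    rw [hx0, hx0] at a0 b0
    rw [hx1, hx1] at a1 b1
    rw [hx2, hx2] at a2 b2
    apply hn
    rw [h u v huv]
    refine (KThreeThree.le_overlap_iff (ht u)).2 ⟨?_, ?_, ?_, ?_, ?_, ?_, ?_, ?_⟩ <;> linarith
  choose c p q hp hq hpq using hsep
  obtain ⟨i, j, hij, hc⟩ := Fintype.exists_ne_map_eq_of_card_lt c (by simp)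
  have h1 := hpq i
  have h3 := hpq j
  rw [← hc] at h3
  have a1 := hadj (q i) (p j) (by rw [hq, hp]; exact fun e => hij (hf e)) (c i)
  have a2 := hadj (q j) (p i) (by rw [hq, hp]; exact fun e => hij (hf e.symm)) (c i)
  linarith

/-! ### Sufficiency -/

/-- left endpoints; the four types of parts are the large part, the two parts with two vertices
and the parts with one vertex -/
noncomputable def lt (M : ℝ) (c : Fin 4) (a : ℕ) : ℝ :=
  if c = 0 then -(3 : ℝ) ^ a - 1 else if c = 1 then (if a = 0 then -M - 1 else -1)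
    else if c = 2 then (if a = 0 then -M - 1 else -2) else -M - 1

/-- right endpoints -/
noncomputable def rt (M : ℝ) (c : Fin 4) (a : ℕ) : ℝ :=
  if c = 0 then (3 : ℝ) ^ a else if c = 1 then (if a = 0 then 1 else M)
    else if c = 2 then (if a = 0 then 0 else M) else M

/-- tolerances -/
noncomputable def tl (c : Fin 4) (a : ℕ) : ℝ :=
  if c = 0 then (3 : ℝ) ^ a + 1 else if c = 1 then (if a = 0 then 3 else 1)
    else if c = 2 then (if a = 0 then 1 else 3) else 1

theorem tl_pos (c : Fin 4) (a : ℕ) : 0 < tl c a := by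
  have e : (1 : ℝ) ≤ 3 ^ a := one_le_pow₀ (by norm_num)
  unfold tl
  fin_cases c <;> simp <;> try split_ifs
  all_goals linarith

theorem lt_le_rt {M : ℝ} (hM : 3 ≤ M) (c : Fin 4) (a : ℕ) : lt M c a ≤ rt M c a := by
  have e : (1 : ℝ) ≤ 3 ^ a := one_le_pow₀ (by norm_num)
  unfold lt rt
  fin_cases c <;> simp <;> try split_ifs
  all_goals linarith

/-- the vertices of the representation are adjacent -/
def P (M : ℝ) (c : Fin 4) (a : ℕ) (c' : Fin 4) (b : ℕ) : Prop :=
  max (tl c a) (tl c' b) ≤ overlap (lt M c a) (rt M c a) (lt M c' b) (rt M c' b)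

theorem P_iff {M : ℝ} {c c' : Fin 4} {a b : ℕ} : P M c a c' b ↔
    tl c a ≤ rt M c a - lt M c a ∧ tl c a ≤ rt M c a - lt M c' b ∧
      tl c a ≤ rt M c' b - lt M c a ∧ tl c a ≤ rt M c' b - lt M c' b ∧
      tl c' b ≤ rt M c a - lt M c a ∧ tl c' b ≤ rt M c a - lt M c' b ∧
      tl c' b ≤ rt M c' b - lt M c a ∧ tl c' b ≤ rt M c' b - lt M c' b :=
  KThreeThree.le_overlap_iff (tl_pos c a)

theorem P_of_ne {M : ℝ} (hM : 3 ≤ M) {c c' : Fin 4} (hc : c ≠ c') {a b : ℕ} (ha : 3 ^ a ≤ M)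
    (hb : 3 ^ b ≤ M) : P M c a c' b := by
  have ea : (1 : ℝ) ≤ 3 ^ a := one_le_pow₀ (by norm_num)
  have eb : (1 : ℝ) ≤ 3 ^ b := one_le_pow₀ (by norm_num)
  rw [P_iff]
  unfold tl lt rt
  generalize (3 : ℝ) ^ a = x at *
  generalize (3 : ℝ) ^ b = y at *
  fin_cases c <;> fin_cases c' <;> simp at hc <;> simp <;> (try split_ifs) <;>
    refine ⟨?_, ?_, ?_, ?_, ?_, ?_, ?_, ?_⟩ <;> linarith

theorem P_three {M : ℝ} (hM : 3 ≤ M) {a b : ℕ} : P M 3 a 3 b := by
  rw [P_iff]
  unfold tl lt rt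
  simp
  linarith

theorem not_P_zero {M : ℝ} {a b : ℕ} (hab : a ≠ b) : ¬ P M 0 a 0 b := by
  rw [P_iff]
  unfold tl lt rt
  simp only [if_true]
  rintro ⟨c1, c2, c3, c4, c5, c6, c7, c8⟩
  have key : ∀ a b : ℕ, a < b → (3 : ℝ) * 3 ^ a ≤ 3 ^ b ∧ (1 : ℝ) ≤ 3 ^ a := by
    intro a b h
    refine ⟨?_, one_le_pow₀ (by norm_num)⟩
    rw [← pow_succ']
    exact pow_le_pow_right₀ (by norm_num) h
  rcases lt_or_gt_of_ne hab with h | h
  · have := key a b h
    linarith [this.1, this.2]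
  · have := key b a h
    linarith [this.1, this.2]

theorem not_P_one {M : ℝ} {a b : ℕ} (hab : a ≠ b) (ha : a ≤ 1) (hb : b ≤ 1) : ¬ P M 1 a 1 b := by
  rw [P_iff]
  unfold tl lt rt
  rintro ⟨c1, c2, c3, c4, c5, c6, c7, c8⟩
  interval_cases a <;> interval_cases b <;> simp at * <;> linarith

theorem not_P_two {M : ℝ} {a b : ℕ} (hab : a ≠ b) (ha : a ≤ 1) (hb : b ≤ 1) : ¬ P M 2 a 2 b := by
  rw [P_iff]
  unfold tl lt rt
  rintro ⟨c1, c2, c3, c4, c5, c6, c7, c8⟩
  interval_cases a <;> interval_cases b <;> simp at * <;> linarith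

theorem of_type {k : ℕ} {n : Fin k → ℕ} (τ : Fin k → Fin 4)
    (h3 : ∀ i j, τ i = τ j → τ i ≠ 3 → i = j) (h1 : ∀ i, τ i = 3 → n i ≤ 1)
    (h2 : ∀ i, τ i ≠ 0 → n i ≤ 2) : IsMaxTolerance (K n) := by
  obtain ⟨N, hN⟩ : ∃ N : ℕ, ∀ i, n i ≤ N := ⟨∑ i, n i, fun i => Finset.single_le_sum
    (fun _ _ => Nat.zero_le _) (Finset.mem_univ i)⟩
  obtain ⟨M, hM⟩ : ∃ M : ℝ, M = 3 ^ (N + 1) := ⟨_, rfl⟩
  have hM3 : 3 ≤ M := by
    rw [hM, pow_succ]
    have : (1 : ℝ) ≤ 3 ^ N := one_le_pow₀ (by norm_num)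
    linarith
  have hpM : ∀ v : (Σ i : Fin k, Fin (n i)), (3 : ℝ) ^ (v.2 : ℕ) ≤ M := by
    rintro ⟨i, a⟩
    rw [hM]
    refine pow_le_pow_right₀ (by norm_num) ?_
    have := hN i
    have := a.2
    show (a : ℕ) ≤ N + 1
    omega
  refine ⟨fun v => lt M (τ v.1) v.2, fun v => rt M (τ v.1) v.2, fun v => tl (τ v.1) v.2,
    fun v => lt_le_rt hM3 _ _, fun v => tl_pos _ _, ?_⟩
  intro u v huv
  show _ ↔ P M (τ u.1) u.2 (τ v.1) v.2
  rw [adj_iff]
  by_cases hτ : τ u.1 = τ v.1
  · by_cases h0 : τ u.1 = 3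
    · rw [← hτ, h0]
      refine iff_of_true ?_ (P_three hM3)
      intro e
      apply huv
      obtain ⟨i, a⟩ := u
      obtain ⟨j, b⟩ := v
      simp only at e
      subst e
      have := h1 i h0
      have ha := a.2
      have hb := b.2
      rw [Fin.ext (by omega : (a : ℕ) = b)]
    · have huv1 := h3 _ _ hτ h0
      refine iff_of_false (fun h => h huv1) ?_
      obtain ⟨i, a⟩ := u
      obtain ⟨j, b⟩ := v
      simp only at huv1 h0
      subst huv1
      have hab : (a : ℕ) ≠ b := fun e => huv (by rw [Fin.ext e])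
      have ha := a.2
      have hb := b.2
      show ¬ P M (τ i) a (τ i) b
      have h4 : τ i = 0 ∨ τ i = 1 ∨ τ i = 2 := by
        have : ∀ c : Fin 4, c ≠ 3 → c = 0 ∨ c = 1 ∨ c = 2 := by decide
        exact this _ h0
      rcases h4 with h4 | h4 | h4
      · rw [h4]; exact not_P_zero hab
      · have := h2 i (by rw [h4]; decide)
        rw [h4]; exact not_P_one hab (by omega) (by omega)
      · have := h2 i (by rw [h4]; decide)
        rw [h4]; exact not_P_two hab (by omega) (by omega)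
  · exact iff_of_true (fun e => hτ (by rw [e])) (P_of_ne hM3 hτ (hpM u) (hpM v))

/-- from the cardinalities to the types -/
theorem exists_type {k : ℕ} {n : Fin k → ℕ} (h1 : {i : Fin k | 3 ≤ n i}.ncard ≤ 1)
    (h2 : {i : Fin k | 2 ≤ n i}.ncard ≤ 3) : ∃ τ : Fin k → Fin 4,
    (∀ i j, τ i = τ j → τ i ≠ 3 → i = j) ∧ (∀ i, τ i = 3 → n i ≤ 1) ∧
      (∀ i, τ i ≠ 0 → n i ≤ 2) := by
  classical
  have hf2 : {i : Fin k | 2 ≤ n i}.Finite := Set.toFinite _
  have hf1 : {i : Fin k | 3 ≤ n i}.Finite := Set.toFinite _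
  -- an injective labelling of the large parts, with the value 0 on the parts with three vertices
  obtain ⟨g, hg1, hg2⟩ : ∃ g : Fin k → Fin 3, Set.InjOn g {i : Fin k | 2 ≤ n i} ∧
      ∀ i, 3 ≤ n i → g i = 0 := by
    have hcard : {i : Fin k | 2 ≤ n i}.encard ≤ (Set.univ : Set (Fin 3)).encard := by
      rw [← hf2.cast_ncard_eq, ← (Set.toFinite (Set.univ : Set (Fin 3))).cast_ncard_eq]
      have : (Set.univ : Set (Fin 3)).ncard = 3 := by rw [Set.ncard_univ]; simp
      rw [this]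
      exact_mod_cast h2
    obtain ⟨g, -, hg⟩ := hf2.exists_injOn_of_encard_le hcard
    by_cases hb : ∃ b, 3 ≤ n b
    · obtain ⟨b, hb⟩ := hb
      refine ⟨fun i => Equiv.swap (g b) 0 (g i), ?_, ?_⟩
      · intro i hi j hj hij
        exact hg hi hj ((Equiv.swap (g b) 0).injective hij)
      · intro i hi
        have : i = b := by
          rw [Set.ncard_le_one_iff hf1] at h1
          exact h1 hi hb
        rw [this]
        simp
    · push Not at hb
      exact ⟨g, hg, fun i hi => absurd hi (by have := hb i; omega)⟩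
  refine ⟨fun i => if 2 ≤ n i then (g i).castSucc else 3, ?_, ?_, ?_⟩
  · intro i j hij hi
    have hn3 : ∀ c : Fin 3, c.castSucc ≠ 3 := by decide
    by_cases h : 2 ≤ n i
    · by_cases h' : 2 ≤ n j
      · simp only [h, h', if_true] at hij
        exact hg1 h h' (Fin.castSucc_injective 3 hij)
      · simp only [h, h', if_true, if_false] at hij
        exact absurd hij (hn3 _)
    · simp only [h, if_false, ne_eq, not_true_eq_false] at hi
  · intro i hi
    have hn3 : ∀ c : Fin 3, c.castSucc ≠ 3 := by decide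
    by_cases h : 2 ≤ n i
    · simp only [h, if_true] at hi
      exact absurd hi (hn3 _)
    · omega
  · intro i hi
    by_contra hcon
    have h3 : 3 ≤ n i := by omega
    have h2 : 2 ≤ n i := by omega
    apply hi
    simp only [h2, if_true, hg2 i h3]
    rfl

/-- `s.ncard ≤ m` fails iff there is an injection of `Fin (m + 1)` into `s` -/
theorem exists_inj {k m : ℕ} {s : Set (Fin k)} (h : ¬ s.ncard ≤ m) :
    ∃ f : Fin (m + 1) → Fin k, Function.Injective f ∧ ∀ i, f i ∈ s := by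
  have hf : s.Finite := Set.toFinite _
  have hcard : (Set.univ : Set (Fin (m + 1))).encard ≤ s.encard := by
    rw [← hf.cast_ncard_eq, ← (Set.toFinite (Set.univ : Set (Fin (m + 1)))).cast_ncard_eq]
    have : (Set.univ : Set (Fin (m + 1))).ncard = m + 1 := by rw [Set.ncard_univ]; simp
    rw [this]
    have : m + 1 ≤ s.ncard := by omega
    exact_mod_cast this
  rcases Nat.eq_zero_or_pos k with rfl | hk
  · exfalso
    have : s = ∅ := Set.eq_empty_of_isEmpty s
    rw [this] at h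
    simp at h
  · have : Nonempty (Fin k) := ⟨⟨0, hk⟩⟩
    obtain ⟨f, hf1, hf2⟩ := (Set.toFinite (Set.univ : Set (Fin (m + 1)))).exists_injOn_of_encard_le
      hcard
    exact ⟨f, Set.injOn_univ.1 hf2, fun i => hf1 (Set.mem_univ i)⟩

/-- **Theorem.** For all `n_1, ..., n_k` the complete multipartite graph `K_{n_1, ..., n_k}` is a
bounded tolerance graph; it is a max-tolerance graph iff at most one of the `n_i` is at least `3`
and at most three of them are at least `2`. -/
theorem result {k : ℕ} (n : Fin k → ℕ) : IsBoundedTolerance (K n) ∧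
    (IsMaxTolerance (K n) ↔
      {i : Fin k | 3 ≤ n i}.ncard ≤ 1 ∧ {i : Fin k | 2 ≤ n i}.ncard ≤ 3) := by
  refine ⟨bounded n, ?_, ?_⟩
  · intro h
    constructor
    · by_contra hcon
      obtain ⟨f, hf, hf2⟩ := exists_inj hcon
      exact no_two_big (fun e => absurd (hf e) (by decide : (0 : Fin 2) ≠ 1)) (hf2 0) (hf2 1) h
    · by_contra hcon
      obtain ⟨f, hf, hf2⟩ := exists_inj hcon
      exact no_four f hf hf2 h
  · rintro ⟨h1, h2⟩
    obtain ⟨τ, a1, a2, a3⟩ := exists_type h1 h2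
    exact of_type τ a1 a2 a3

end Pool.Agent.Results.MP_78c384_co.Multipartite
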